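import Pool.Agent.H26.FM.Defs

/-!
# The eigenparts of an action
-/

noncomputable section

namespace GD

variable {S : Str}

theorem mem_eigenpart {K : Type} [Field K] (κ : K →ₙ+* Module.End ℂ S.W) (τ : K →+* ℂ) (x : S.W) :
    x ∈ eigenpart κ τ ↔ ∀ a, κ a x = τ a • x := by
  rw [eigenpart, Submodule.mem_iInf]
  exact forall_congr' fun a => Module.End.mem_eigenspace_iff

end GD
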