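import Pool.Agent.H26.FM.FacDefs
import Pool.Agent.H26.FM.Factor
import Pool.Agent.H27.GD.Moves
import Pool.Agent.H44.FM.GammaBase

/-!
# Factors and substructures
-/

noncomputable section

namespace GD

open Complex NumberField

variable {S : Str} {K : Type} [Field K]

/-- The substructure of a factor. -/
theorem exists_sub (κ : K →ₙ+* Module.End ℂ S.W) (hκ : ∀ a, IsHom S S (κ a)) (h1 : κ 1 ≠ 0) :
    ∃ (M : Submodule ℚ S.W) (ι : K →+* Module.End ℂ (S.cx M)), IsSub S M ∧ M ≠ ⊥ ∧
      (∀ a, IsEnd S M (ι a)) ∧ (∀ τ, eig ι τ = eigenpart κ τ) ∧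
      (∀ w ∈ Submodule.span Qbar (S.B : Set S.W), κ 1 w = w →
        w ∈ Submodule.span Qbar (M : Set S.W)) ∧
      S.cx M = LinearMap.range (κ 1) ∧ ∀ a (x : S.cx M), (ι a x : S.W) = κ a x := by
  let M : Submodule ℚ S.W := imgQ (κ 1) S.B
  have hcx : S.cx M = LinearMap.range (κ 1) := by
    rw [cx_imgQ, Str.cx_B, Submodule.map_top]
  have hmul : ∀ a b w, κ a (κ b w) = κ (a * b) w := by
    intro a b w
    rw [map_mul]
    rfl
  have hid : ∀ w ∈ S.cx M, κ 1 w = w := by
    intro w hw
    rw [hcx] at hw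
    obtain ⟨u, rfl⟩ := hw
    rw [hmul, one_mul]
  have hmem : ∀ a w, κ a w ∈ S.cx M := by
    intro a w
    rw [hcx]
    exact ⟨κ a w, by rw [hmul, one_mul]⟩
  let ι : K →+* Module.End ℂ (S.cx M) :=
    { toFun := fun a => (κ a).restrict fun x _ => hmem a x
      map_one' := by
        ext x
        exact hid x x.2
      map_mul' := by
        intro a b
        ext x
        exact (hmul a b x).symm
      map_zero' := by
        ext x
        change κ 0 x = 0
        rw [map_zero, LinearMap.zero_apply]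
      map_add' := by
        intro a b
        ext x
        change κ (a + b) x = κ a x + κ b x
        rw [map_add, LinearMap.add_apply] }
  have hι : ∀ a (x : S.cx M), (ι a x : S.W) = κ a x := fun _ _ => rfl
  have hMM : ∀ x, x ∈ S.B → κ 1 x = x → x ∈ M := fun x hx h => ⟨x, hx, h⟩
  have hMcx : ∀ x ∈ M, x ∈ S.cx M := fun x hx => Submodule.subset_span hx
  refine ⟨M, ι, isSub_img (hκ 1) isSub_top, ?_, ?_, ?_, ?_, hcx, hι⟩
  · intro h0
    apply h1
    have h2 : (⊤ : Submodule ℂ S.W) ≤ LinearMap.ker (κ 1) := by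
      rw [← Str.cx_B, Submodule.span_le]
      intro x hx
      have h3 : κ 1 x ∈ M := ⟨x, hx, rfl⟩
      rw [h0] at h3
      exact h3
    ext w
    exact h2 (Submodule.mem_top : w ∈ ⊤)
  · intro a
    refine ⟨?_, ?_, ?_⟩
    · intro x hx
      rw [hι]
      have hxB : (x : S.W) ∈ S.B := (isSub_img (hκ 1) isSub_top).le hx
      exact hMM _ ((hκ a).betti _ hxB) (by rw [hmul, one_mul])
    · intro x hx
      rw [hι]
      exact (hκ a).deRham _ hx
    · intro q x hx
      rw [hι]
      exact (hκ a).hodge q _ hx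
  · intro τ
    ext x
    rw [mem_eigenpart, DT.mem_eig]
    constructor
    · rintro ⟨h, hx⟩ a
      have h2 := congrArg (fun z : S.cx M => (z : S.W)) (hx a)
      exact h2
    · intro hx
      have h2 : x ∈ S.cx M := by
        have h3 := hx 1
        rw [map_one τ, one_smul] at h3
        rw [← h3]
        exact hmem 1 x
      refine ⟨h2, fun a => ?_⟩
      apply Subtype.ext
      exact hx a
  · intro w hw hw1
    have h2 : Submodule.span Qbar (S.B : Set S.W) ≤
        (Submodule.span Qbar (M : Set S.W)).comap ((κ 1).restrictScalars Qbar) := by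
      rw [Submodule.span_le]
      intro x hx
      exact Submodule.subset_span (show κ 1 x ∈ M from ⟨x, hx, rfl⟩)
    have h3 : κ 1 w ∈ Submodule.span Qbar (M : Set S.W) := h2 hw
    rwa [hw1] at h3

variable {M : Submodule ℚ S.W} {ι : K →+* Module.End ℂ (S.cx M)} {κ : K →ₙ+* Module.End ℂ S.W}

theorem factorType_eq (h : ∀ τ, eigenpart κ τ = eig ι τ) (τ : K →+* ℂ) :
    factorType κ τ = detType ι τ := by
  rw [factorType, detType]
  exact Finset.sum_congr rfl fun p _ => by rw [h]

/-- A determinant of periods of the substructure is one of the factor. -/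
theorem factorPeriod_of [NumberField K] (hM : M ≤ S.B) (h : ∀ τ, eigenpart κ τ = eig ι τ)
    {τ : K →+* ℂ} {z : ℂ} (hz : IsDetPeriod ι τ z) : IsFactorPeriod κ τ z := by
  have h0 := (detPeriod_trace ι hM hz).1
  obtain ⟨n, v, ω, P, hv, hvL, hω, hωL, hvM, hωD, hωP, hzP⟩ := hz
  refine ⟨n, v, P, hv, by rw [hvL, h], fun i => ⟨?_, ?_⟩, hzP, h0⟩
  · exact Submodule.span_mono (fun x hx => hM hx) (hvM i)
  · rw [← hωP]
    exact hωD i

/-- A determinant of periods of the factor is one of the substructure. -/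
theorem detPeriod_of (h : ∀ τ, eig ι τ = eigenpart κ τ)
    (hM : ∀ w ∈ Submodule.span Qbar (S.B : Set S.W), κ 1 w = w →
      w ∈ Submodule.span Qbar (M : Set S.W)) {τ : K →+* ℂ} {z : ℂ}
    (hz : IsFactorPeriod κ τ z) : IsDetPeriod ι τ z := by
  obtain ⟨n, v, P, hv, hvL, hvP, rfl, h0⟩ := hz
  have hmem : ∀ i, v i ∈ eigenpart κ τ := fun i => by
    rw [← hvL]
    exact Submodule.subset_span (Set.mem_range_self i)
  have hlin : LinearIndependent ℂ fun i => ∑ j, P i j • v j := by
    rw [Fintype.linearIndependent_iff]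
    intro u hu
    have h1 : ∑ j, (∑ i, u i * P i j) • v j = 0 := by
      rw [← hu]
      simp only [Finset.smul_sum, smul_smul, Finset.sum_smul]
      exact Finset.sum_comm
    have h2 := (Fintype.linearIndependent_iff.1 hv) _ h1
    by_contra hcon
    push Not at hcon
    obtain ⟨i, hi⟩ := hcon
    refine h0 (Matrix.exists_vecMul_eq_zero_iff.1 ⟨u, fun h3 => hi (congrFun h3 i), ?_⟩)
    funext j
    exact h2 j
  refine ⟨n, v, fun i => ∑ j, P i j • v j, P, hv, by rw [hvL, h], hlin, ?_, fun j => ?_,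
    fun i => (hvP i).2, fun i => rfl, rfl⟩
  · rw [h, ← hvL]
    apply Submodule.eq_of_le_of_finrank_eq
    · rw [Submodule.span_le]
      rintro _ ⟨i, rfl⟩
      exact Submodule.sum_mem _ fun j _ =>
        Submodule.smul_mem _ _ (Submodule.subset_span (Set.mem_range_self j))
    · rw [finrank_span_eq_card hlin, finrank_span_eq_card hv]
  · refine hM _ (hvP j).1 ?_
    have h2 := (mem_eigenpart κ τ _).1 (hmem j) 1
    rwa [map_one τ, one_smul] at h2

end GD
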