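import Pool.Agent.H5.GD.Defs

/-!
# Analytic part: solutions of a logarithmic equation
-/

namespace GD

open Polynomial Filter Topology

theorem continuous_aeval' (p : Qbar[X]) : Continuous fun x : ℂ => aeval x p := by
  have h : (fun x : ℂ => aeval x p) = fun x : ℂ => (p.map (algebraMap Qbar ℂ)).eval x := by
    funext x
    rw [eval_map_algebraMap]
  rw [h]
  exact Polynomial.continuous _

theorem hasDerivAt_aeval' (p : Qbar[X]) (x : ℂ) :
    HasDerivAt (fun y : ℂ => aeval y p) (aeval x (derivative p)) x :=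
  Polynomial.hasDerivAt_aeval p x

theorem poly_zero {U : Set ℂ} (hU : IsOpen U) (hne : U.Nonempty) {p r : Qbar[X]} (hr : r ≠ 0)
    (h : ∀ x ∈ U, aeval x r ≠ 0 → aeval x p = 0) : p = 0 := by
  have h1 : (p * r).map (algebraMap Qbar ℂ) = 0 := by
    apply eq_zero_of_infinite_isRoot
    obtain ⟨x, hx⟩ := hne
    refine (infinite_of_mem_nhds x (hU.mem_nhds hx)).mono fun y hy => ?_
    change ((p * r).map (algebraMap Qbar ℂ)).IsRoot y
    rw [IsRoot, eval_map_algebraMap, map_mul]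
    by_cases h2 : aeval y r = 0
    · rw [h2, mul_zero]
    · rw [h y hy h2, zero_mul]
  rw [Polynomial.map_eq_zero_iff (algebraMap Qbar ℂ).injective] at h1
  exact (mul_eq_zero.1 h1).resolve_right hr

theorem exists_generic {U : Set ℂ} (hU : IsOpen U) (hne : U.Nonempty) {r : Qbar[X]} (hr : r ≠ 0) :
    ∃ x ∈ U, aeval x r ≠ 0 := by
  by_contra hcon
  push Not at hcon
  exact one_ne_zero (poly_zero (p := 1) hU hne hr fun x hx h0 => absurd (hcon x hx) h0)

theorem eq_of_punctured {f g : ℂ → ℂ} {s : ℂ} (hf : ContinuousAt f s) (hg : ContinuousAt g s)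
    {U : Set ℂ} (hU : IsOpen U) (hs : s ∈ U) (h : ∀ x ∈ U, x ≠ s → f x = g x) : f s = g s := by
  refine tendsto_nhds_unique_of_eventuallyEq (hf.tendsto.mono_left nhdsWithin_le_nhds)
    (hg.tendsto.mono_left (nhdsWithin_le_nhds (s := {s}ᶜ))) ?_
  filter_upwards [self_mem_nhdsWithin, nhdsWithin_le_nhds (hU.mem_nhds hs)] with x hx hxU
  exact h x hxU hx

theorem split_at {p : Qbar[X]} (hp : p ≠ 0) (s : Qbar) :
    ∃ (a : ℕ) (ρ : Qbar[X]), p = (X - C s) ^ a * ρ ∧ ρ.eval s ≠ 0 := by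
  obtain ⟨ρ, h1, h2⟩ := exists_eq_pow_rootMultiplicity_mul_and_not_dvd p hp s
  exact ⟨_, ρ, h1, fun h0 => h2 (dvd_iff_isRoot.2 h0)⟩

theorem aeval_coe (p : Qbar[X]) (s : Qbar) : aeval (s : ℂ) p = (p.eval s : Qbar) :=
  aeval_algebraMap_apply_eq_algebraMap_eval s p

theorem alg_coe (a : Qbar) : IsAlgebraic ℚ (a : ℂ) := by
  have h := a.2
  rwa [mem_algebraicClosure_iff] at h

/-- Leading coefficients. -/
theorem algebraic_of_relation {U : Set ℂ} (hU : IsOpen U) {s : Qbar} (hs : (s : ℂ) ∈ U)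
    {A B : ℂ → ℂ} (hA : ContinuousAt A s) (hB : ContinuousAt B s) {p₁ p₂ : Qbar[X]}
    (hp₁ : p₁ ≠ 0) (hp₂ : p₂ ≠ 0) (h : ∀ x ∈ U, A x * aeval x p₁ = B x * aeval x p₂)
    (hAs : A s ≠ 0) (hBs : B s ≠ 0) : IsAlgebraic ℚ (A s / B s) := by
  obtain ⟨a, ρ₁, rfl, h1⟩ := split_at hp₁ s
  obtain ⟨b, ρ₂, rfl, h2⟩ := split_at hp₂ s
  have h1' : aeval (s : ℂ) ρ₁ ≠ 0 := by
    rw [aeval_coe]
    exact fun h0 => h1 (by exact_mod_cast h0)
  have h2' : aeval (s : ℂ) ρ₂ ≠ 0 := by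
    rw [aeval_coe]
    exact fun h0 => h2 (by exact_mod_cast h0)
  have key : ∀ x ∈ U, A x * ((x - s) ^ a * aeval x ρ₁) = B x * ((x - s) ^ b * aeval x ρ₂) := by
    intro x hx
    have h3 := h x hx
    simp only [map_mul, map_pow, map_sub, aeval_X, aeval_C] at h3
    exact h3
  have hc1 : ContinuousAt (fun x : ℂ => aeval x ρ₁) (s : ℂ) := (continuous_aeval' ρ₁).continuousAt
  have hc2 : ContinuousAt (fun x : ℂ => aeval x ρ₂) (s : ℂ) := (continuous_aeval' ρ₂).continuousAt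
  have hsub : ∀ j : ℕ, ContinuousAt (fun x : ℂ => (x - s) ^ j) (s : ℂ) := fun j =>
    ((continuous_id.sub continuous_const).pow j).continuousAt
  rcases lt_trichotomy a b with hab | hab | hab
  · exfalso
    have h3 : A s * aeval (s : ℂ) ρ₁ = B s * (((s : ℂ) - s) ^ (b - a) * aeval (s : ℂ) ρ₂) :=
      eq_of_punctured (f := fun x => A x * aeval x ρ₁)
        (g := fun x => B x * ((x - s) ^ (b - a) * aeval x ρ₂))
        (hA.mul hc1) (hB.mul ((hsub (b - a)).mul hc2)) hU hs (by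
      intro x hx hxs
      have h4 := key x hx
      have h5 : (x - (s : ℂ)) ^ a ≠ 0 := pow_ne_zero _ (sub_ne_zero.2 hxs)
      apply mul_left_cancel₀ h5
      have h6 : (x - (s : ℂ)) ^ b = (x - s) ^ a * (x - s) ^ (b - a) := by
        rw [← pow_add]; congr 1; omega
      rw [h6] at h4
      linear_combination h4)
    have h7 : ((s : ℂ) - s) ^ (b - a) = 0 := by
      rw [sub_self]; exact zero_pow (by omega)
    rw [h7, zero_mul, mul_zero] at h3
    exact mul_ne_zero hAs h1' h3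
  · subst hab
    have h3 : A s * aeval (s : ℂ) ρ₁ = B s * aeval (s : ℂ) ρ₂ :=
      eq_of_punctured (f := fun x => A x * aeval x ρ₁) (g := fun x => B x * aeval x ρ₂)
        (hA.mul hc1) (hB.mul hc2) hU hs (by
      intro x hx hxs
      have h5 : (x - (s : ℂ)) ^ a ≠ 0 := pow_ne_zero _ (sub_ne_zero.2 hxs)
      apply mul_left_cancel₀ h5
      linear_combination key x hx)
    have h4 : A s / B s = aeval (s : ℂ) ρ₂ / aeval (s : ℂ) ρ₁ := by
      rw [div_eq_div_iff hBs h1', h3, mul_comm]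
    rw [h4, aeval_coe, aeval_coe]
    exact (alg_coe _).mul (alg_coe _).inv
  · exfalso
    have h3 : A s * (((s : ℂ) - s) ^ (a - b) * aeval (s : ℂ) ρ₁) = B s * aeval (s : ℂ) ρ₂ :=
      eq_of_punctured (f := fun x => A x * ((x - s) ^ (a - b) * aeval x ρ₁))
        (g := fun x => B x * aeval x ρ₂)
        (hA.mul ((hsub (a - b)).mul hc1)) (hB.mul hc2) hU hs (by
      intro x hx hxs
      have h4 := key x hx
      have h5 : (x - (s : ℂ)) ^ b ≠ 0 := pow_ne_zero _ (sub_ne_zero.2 hxs)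
      apply mul_left_cancel₀ h5
      have h6 : (x - (s : ℂ)) ^ a = (x - s) ^ b * (x - s) ^ (a - b) := by
        rw [← pow_add]; congr 1; omega
      rw [h6] at h4
      linear_combination h4)
    have h7 : ((s : ℂ) - s) ^ (a - b) = 0 := by
      rw [sub_self]; exact zero_pow (by omega)
    rw [h7, zero_mul, mul_zero] at h3
    exact mul_ne_zero hBs h2' h3.symm

/-- A solution of a logarithmic equation is, up to a power, a constant times a rational function. -/
theorem exists_const {U : Set ℂ} (hU : IsOpen U) (hc : IsPreconnected U) (hne : U.Nonempty)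
    {δ : ℂ → ℂ} (hδ : DifferentiableOn ℂ δ U) {r T R₁ R₂ : Qbar[X]} {N : ℕ} (hr : r ≠ 0)
    (hR₁ : R₁ ≠ 0) (hR₂ : R₂ ≠ 0)
    (hder : ∀ x ∈ U, aeval x r ≠ 0 → HasDerivAt δ (aeval x T / aeval x r * δ x) x)
    (hR : (derivative R₁ * R₂ - R₁ * derivative R₂) * r = (N : Qbar[X]) * T * R₁ * R₂)
    {g : Qbar[X]} (hg : g ≠ 0) (hδ0 : ∀ x ∈ U, aeval x g ≠ 0 → δ x ≠ 0) :
    ∃ c : ℂ, c ≠ 0 ∧ ∀ x ∈ U, δ x ^ N * aeval x R₂ = c * aeval x R₁ := by
  obtain ⟨x₀, hx₀, h0⟩ := exists_generic hU hne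
    (mul_ne_zero (mul_ne_zero (mul_ne_zero hr hR₁) hR₂) hg)
  have hopen : IsOpen {x : ℂ | aeval x (r * R₁ * R₂ * g) ≠ 0} :=
    (continuous_aeval' _).isOpen_preimage _ isOpen_compl_singleton
  obtain ⟨ε, hε, hball⟩ := Metric.isOpen_iff.1 (hU.inter hopen) x₀ ⟨hx₀, h0⟩
  have hgood : ∀ x ∈ Metric.ball x₀ ε, x ∈ U ∧ aeval x r ≠ 0 ∧ aeval x R₁ ≠ 0 ∧
      aeval x R₂ ≠ 0 ∧ aeval x g ≠ 0 := by
    intro x hx
    obtain ⟨h1, h2⟩ := hball hx
    rw [Set.mem_setOf_eq, map_mul, map_mul, map_mul] at h2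
    refine ⟨h1, ?_, ?_, ?_, ?_⟩ <;> intro h3 <;> apply h2 <;> rw [h3] <;> ring
  let F : ℂ → ℂ := fun x => δ x ^ N * aeval x R₂ / aeval x R₁
  have hF : ∀ x ∈ Metric.ball x₀ ε, HasDerivAt F 0 x := by
    intro x hx
    obtain ⟨h1, h2, h3, h4, -⟩ := hgood x hx
    have h5 := (((hder x h1 h2).fun_pow N).fun_mul (hasDerivAt_aeval' R₂ x)).fun_div
      (hasDerivAt_aeval' R₁ x) h3
    refine h5.congr_deriv ?_
    have h6 := congrArg (fun p : Qbar[X] => aeval x p) hR
    simp only [map_mul, map_sub, map_natCast] at h6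
    rw [div_eq_zero_iff]
    left
    rcases Nat.eq_zero_or_pos N with hN | hN
    · subst hN
      simp only [Nat.cast_zero, zero_mul, pow_zero, one_mul, zero_add] at h6 ⊢
      have h7 := (mul_eq_zero.1 h6).resolve_right h2
      linear_combination -h7
    · obtain ⟨j, rfl⟩ : ∃ j, N = j + 1 := ⟨N - 1, by omega⟩
      rw [Nat.add_sub_cancel]
      have h8 : aeval x T / aeval x r * δ x * aeval x r = aeval x T * δ x := by
        field_simp
      apply mul_right_cancel₀ h2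
      rw [zero_mul]
      linear_combination
        ((j + 1 : ℕ) : ℂ) * δ x ^ j * aeval x R₂ * aeval x R₁ * h8 - δ x ^ (j + 1) * h6
  have hconst : ∀ x ∈ Metric.ball x₀ ε, F x = F x₀ := by
    intro x hx
    exact (convex_ball x₀ ε).is_const_of_fderivWithin_eq_zero (𝕜 := ℂ)
      (fun y hy => (hF y hy).differentiableAt.differentiableWithinAt)
      (fun y hy => by
        rw [fderivWithin_of_isOpen Metric.isOpen_ball hy]
        have h9 := (hF y hy).hasFDerivAt.fderiv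
        rw [h9]
        ext
        simp) hx (Metric.mem_ball_self hε)
  have hx₀' := hgood x₀ (Metric.mem_ball_self hε)
  refine ⟨F x₀, ?_, ?_⟩
  · exact div_ne_zero (mul_ne_zero (pow_ne_zero _ (hδ0 x₀ hx₀ hx₀'.2.2.2.2)) hx₀'.2.2.2.1)
      hx₀'.2.2.1
  · have hd : ∀ p : Qbar[X], DifferentiableOn ℂ (fun x : ℂ => aeval x p) U := fun p x _ =>
      (hasDerivAt_aeval' p x).differentiableAt.differentiableWithinAt
    have h1 : AnalyticOnNhd ℂ (fun x => δ x ^ N * aeval x R₂) U :=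
      ((hδ.pow N).mul (hd R₂)).analyticOnNhd hU
    have h2 : AnalyticOnNhd ℂ (fun x => F x₀ * aeval x R₁) U :=
      ((differentiableOn_const (F x₀)).mul (hd R₁)).analyticOnNhd hU
    have h3 := h1.eqOn_of_preconnected_of_eventuallyEq h2 hc hx₀ (by
      filter_upwards [Metric.ball_mem_nhds x₀ hε] with x hx
      rw [← hconst x hx]
      exact (div_mul_cancel₀ _ (hgood x hx).2.2.1).symm)
    exact fun x hx => h3 hx

end GD
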