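import Mathlib

/-!
# Regular singular connections with rational exponents over the projective line

The connection `c ↦ c' + c * A`, `A = P / q`, on row vectors of rational functions, where `P` is a
matrix of polynomials and `q` is a polynomial.
-/

namespace GD

open Polynomial

section reg

variable {k : Type} [Field k]

/-- The rational function `p / q` has the value `r` at `a`. -/
def Takes (a : k) (p q : k[X]) (r : k) : Prop :=
  ∃ u v : k[X], v.eval a ≠ 0 ∧ p * v = q * u ∧ r * v.eval a = u.eval a

/-- The rational function `p / q` has the value `r` at infinity. -/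
def TakesInf (p q : k[X]) (r : k) : Prop :=
  ∃ (u v : k[X]) (d : ℕ), v.coeff d ≠ 0 ∧ u.natDegree ≤ d ∧ v.natDegree ≤ d ∧ p * v = q * u ∧
    r * v.coeff d = u.coeff d

/-- All (left) eigenvalues of `R` are rational numbers. -/
def RatEigen {n : ℕ} (R : Matrix (Fin n) (Fin n) k) : Prop :=
  ∀ (r : k) (v : Fin n → k), v ≠ 0 → Matrix.vecMul v R = r • v → ∃ m : ℚ, r = m

variable {n : ℕ} (P : Matrix (Fin n) (Fin n) k[X]) (q : k[X])

/-- The numerator of the matrix of the connection `P / q` in the frame given by `G`: the matrix of
the connection is `gaugeNum P q G / (q * det G)`. -/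
noncomputable def gaugeNum (G : Matrix (Fin n) (Fin n) k[X]) : Matrix (Fin n) (Fin n) k[X] :=
  (q • G.map derivative + G * P) * G.adjugate

/-- The connection with matrix `P / q` has a regular singularity with rational exponents at `a`:
in some frame its matrix has at most a simple pole at `a`, with a residue all of whose eigenvalues
are rational. -/
def RegularAt (a : k) : Prop :=
  ∃ (G : Matrix (Fin n) (Fin n) k[X]) (R : Matrix (Fin n) (Fin n) k), G.det ≠ 0 ∧
    (∀ i j, Takes a ((X - C a) * gaugeNum P q G i j) (q * G.det) (R i j)) ∧ RatEigen R

/-- The connection with matrix `P / q` has a regular singularity with rational exponents at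
infinity. -/
def RegularInf : Prop :=
  ∃ (G : Matrix (Fin n) (Fin n) k[X]) (R : Matrix (Fin n) (Fin n) k), G.det ≠ 0 ∧
    (∀ i j, TakesInf (X * gaugeNum P q G i j) (q * G.det) (R i j)) ∧ RatEigen R

end reg

end GD
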