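import Pool.Agent.H26.FM.Act
import Pool.Agent.H26.FM.Reg

/-!
# Two fibres of an algebraic family of structures
-/

noncomputable section

namespace GD

open Complex Polynomial

/-- `S` and `T` are fibres of a family of structures over an open set of the complex line, with an
algebraic connection over the algebraic numbers which has regular singularities with rational
exponents. All fibres are identified with `S.W` by parallel transport. -/
structure Deform (S T : Str) where
  /-- parallel transport from the fibre `S` to the fibre `T` -/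
  par : S.W ≃ₗ[ℂ] T.W
  par_B : ∀ x, x ∈ S.B ↔ par x ∈ T.B
  /-- the open set of parameters -/
  U : Set ℂ
  isOpen : IsOpen U
  conn : IsPreconnected U
  /-- the parameter of `S` -/
  s : Qbar
  /-- the parameter of `T` -/
  t : Qbar
  hs : (s : ℂ) ∈ U
  ht : (t : ℂ) ∈ U
  /-- the rank -/
  n : ℕ
  /-- the algebraic frame -/
  ω : Fin n → ℂ → S.W
  indep : ∀ x ∈ U, LinearIndependent ℂ fun i => ω i x
  span : ∀ x ∈ U, Submodule.span ℂ (Set.range fun i => ω i x) = ⊤
  dR_s : ∀ x, x ∈ S.D ↔ ∃ c : Fin n → Qbar, x = ∑ i, (c i : ℂ) • ω i s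
  dR_t : ∀ x, par x ∈ T.D ↔ ∃ c : Fin n → Qbar, x = ∑ i, (c i : ℂ) • ω i t
  /-- the matrix of the connection is `P / q` -/
  P : Matrix (Fin n) (Fin n) Qbar[X]
  /-- the denominator of the matrix of the connection -/
  q : Qbar[X]
  q_ne : ∀ x ∈ U, aeval x q ≠ 0
  der : ∀ (f : S.W →ₗ[ℂ] ℂ), ∀ x ∈ U, ∀ i,
    HasDerivAt (fun y => f (ω i y)) ((∑ j, aeval x (P i j) * f (ω j x)) / aeval x q) x
  regular : ∀ a, RegularAt P q a
  regular_inf : RegularInf P q

variable {S T : Str} (V : Deform S T)

/-- The sections with the coordinates `c` in the algebraic frame. -/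
def Deform.comb {m : ℕ} (c : Matrix (Fin m) (Fin V.n) Qbar[X]) (i : Fin m) (x : ℂ) : S.W :=
  ∑ j, aeval x (c i j) • V.ω j x

/-- The subspace `L` is an algebraic subbundle of the family: for almost all parameters `x` it has
a basis whose coordinates in the algebraic frame are polynomials in `x`. -/
def Deform.AlgSub (L : Submodule ℂ S.W) : Prop :=
  ∃ (m : ℕ) (c : Matrix (Fin m) (Fin V.n) Qbar[X]) (r : Qbar[X]), r ≠ 0 ∧
    ∀ x ∈ V.U, aeval x r ≠ 0 → (LinearIndependent ℂ fun i => V.comb c i x) ∧
      Submodule.span ℂ (Set.range fun i => V.comb c i x) = L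

/-- The action `κ` of the field `K` on a factor of the fibre `S` is flat: the parts on which `K`
acts through one embedding are algebraic subbundles, and have the same Hodge numbers in the
fibre `T`. -/
def Deform.Flat {K : Type} [Field K] (κ : K →ₙ+* Module.End ℂ S.W) : Prop :=
  ∀ τ, V.AlgSub (eigenpart κ τ) ∧ ∀ p,
    Module.finrank ℂ ((eigenpart κ τ).map V.par.toLinearMap ⊓ T.hodge p : Submodule ℂ T.W) =
      Module.finrank ℂ (eigenpart κ τ ⊓ S.hodge p : Submodule ℂ S.W)

/-- All actions of imaginary cyclic subfields `K` of `F` on factors of `S` through the centre of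
the endomorphisms are flat, after restriction to some factor which is not zero, in families with a
fibre in the class `C₀`. -/
def FlatInto (C₀ : Str → Prop) (S : Str) {F : Type} [Field F] (e : F →+* ℂ) : Prop :=
  ∀ (K : Type) [Field K] [NumberField K] (i : K →+* F), (∃ x, (e (i x)).im ≠ 0) →
    IsGalois ℚ K → IsCyclic (K ≃ₐ[ℚ] K) → ∀ κ : K →ₙ+* Module.End ℂ S.W, CentralAction κ →
      ∃ φ, IsRestriction κ φ ∧ ∃ T, C₀ T ∧ ∃ V : Deform S T, V.Flat φ

end GD
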