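import Mathlib

/-!
# The derivative of a determinant
-/

namespace GD

open Finset

theorem det_updateRow_erase {m : ℕ} (Y : Matrix (Fin m) (Fin m) ℂ) (i : Fin m) (v : Fin m → ℂ) :
    (Y.updateRow i v).det = ∑ σ : Equiv.Perm (Fin m),
      ((Equiv.Perm.sign σ : ℤ) : ℂ) * ((∏ j ∈ univ.erase i, Y j (σ j)) * v (σ i)) := by
  rw [← Matrix.det_transpose, Matrix.det_apply']
  refine sum_congr rfl fun σ _ => ?_
  congr 1
  rw [← prod_erase_mul univ _ (mem_univ i)]
  congr 1
  · refine prod_congr rfl fun j hj => ?_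
    rw [Matrix.transpose_apply, Matrix.updateRow_ne (ne_of_mem_erase hj)]
  · rw [Matrix.transpose_apply, Matrix.updateRow_self]

theorem hasDerivAt_det {m : ℕ} {Y : ℂ → Matrix (Fin m) (Fin m) ℂ}
    {Y' : Matrix (Fin m) (Fin m) ℂ} {x : ℂ}
    (h : ∀ i j, HasDerivAt (fun y => Y y i j) (Y' i j) x) :
    HasDerivAt (fun y => (Y y).det) (∑ i, ((Y x).updateRow i (Y' i)).det) x := by
  have h1 : (fun y => (Y y).det) = fun y => ∑ σ : Equiv.Perm (Fin m),
      ((Equiv.Perm.sign σ : ℤ) : ℂ) * ∏ i, Y y i (σ i) := by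
    funext y
    rw [← Matrix.det_transpose, Matrix.det_apply']
    rfl
  have h2 : (∑ i, ((Y x).updateRow i (Y' i)).det) = ∑ σ : Equiv.Perm (Fin m),
      ((Equiv.Perm.sign σ : ℤ) : ℂ) * ∑ i, (∏ j ∈ univ.erase i, Y x j (σ j)) * Y' i (σ i) := by
    simp only [det_updateRow_erase]
    rw [sum_comm]
    refine sum_congr rfl fun σ _ => ?_
    rw [mul_sum]
  rw [h1, h2]
  refine HasDerivAt.fun_sum fun σ _ => HasDerivAt.const_mul _ ?_
  have h3 := HasDerivAt.fun_finset_prod (u := univ) (f := fun i y => Y y i (σ i))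
    (f' := fun i => Y' i (σ i)) (x := x) fun i _ => h i (σ i)
  simpa only [smul_eq_mul] using h3

/-- The formula of Jacobi for a linear system. -/
theorem hasDerivAt_det_of_system {m : ℕ} {Y : ℂ → Matrix (Fin m) (Fin m) ℂ}
    {H : Matrix (Fin m) (Fin m) ℂ} {x : ℂ}
    (h : ∀ i j, HasDerivAt (fun y => Y y i j) ((H * Y x) i j) x) :
    HasDerivAt (fun y => (Y y).det) (H.trace * (Y x).det) x := by
  have h1 := hasDerivAt_det h
  have h2 : (∑ i, ((Y x).updateRow i ((H * Y x) i)).det) = H.trace * (Y x).det := by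
    rw [Matrix.trace, sum_mul]
    refine sum_congr rfl fun i _ => ?_
    have h3 : (H * Y x) i = ∑ k, H i k • Y x k := by
      funext j
      rw [Matrix.mul_apply, Finset.sum_apply]
      rfl
    rw [h3, Matrix.det_updateRow_sum, Matrix.diag_apply, smul_eq_mul]
  rwa [h2] at h1

end GD
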