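import Mathlib

/-!
# Linear algebra for frames
-/

namespace GD

open Matrix

/-- A matrix with linearly independent rows has an invertible maximal minor. -/
theorem exists_minor {F : Type} [Field F] {m n : ℕ} (c : Matrix (Fin m) (Fin n) F)
    (hc : LinearIndependent F fun i => c i) : ∃ J : Fin m → Fin n, (c.submatrix id J).det ≠ 0 := by
  have hr : c.rank = m := by
    have h := LinearIndependent.rank_matrix (M := c) hc
    rwa [Fintype.card_fin] at h
  rw [Matrix.rank_eq_finrank_span_cols] at hr
  have htop : Submodule.span F (Set.range c.col) = ⊤ := by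
    apply Submodule.eq_top_of_finrank_eq
    rw [hr, Module.finrank_fin_fun]
  obtain ⟨b, hb, hspan, hli⟩ := exists_linearIndependent F (Set.range c.col)
  rw [htop] at hspan
  have hbas : Submodule.span F (Set.range ((↑) : b → (Fin m → F))) = ⊤ := by
    rw [Subtype.range_coe]
    exact hspan
  let B := Module.Basis.mk hli hbas.ge
  have : Fintype b := FiniteDimensional.fintypeBasisIndex B
  have hcard : Fintype.card b = m := by
    rw [← Module.finrank_eq_card_basis B, Module.finrank_fin_fun]
  let e := (Fintype.equivFinOfCardEq hcard).symm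
  have hJ : ∀ i, ∃ j, c.col j = (e i : Fin m → F) := fun i => hb (e i).2
  choose J hJ using hJ
  refine ⟨J, ?_⟩
  have h2 : LinearIndependent F (c.submatrix id J).col := by
    have h3 : (c.submatrix id J).col = fun i => ((e i : b) : Fin m → F) := by
      funext i
      rw [← hJ i]
      rfl
    rw [h3]
    exact hli.comp e e.injective
  have h4 := (Matrix.linearIndependent_cols_iff_isUnit).1 h2
  rw [Matrix.isUnit_iff_isUnit_det] at h4
  exact h4.ne_zero

variable {W : Type} [AddCommGroup W] [Module ℂ W] {m : ℕ}

/-- Coordinates with respect to an independent family, extended to the whole space. -/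
theorem exists_coord {v : Fin m → W} (hv : LinearIndependent ℂ v) :
    ∃ g : W →ₗ[ℂ] (Fin m → ℂ), ∀ w ∈ Submodule.span ℂ (Set.range v), w = ∑ j, g w j • v j := by
  obtain ⟨g, hg⟩ := LinearMap.exists_leftInverse_of_injective (Fintype.linearCombination ℂ v)
    (by
      exact LinearMap.ker_eq_bot.2 hv.fintypeLinearCombination_injective)
  refine ⟨g, fun w hw => ?_⟩
  rw [← Fintype.range_linearCombination ℂ] at hw
  obtain ⟨a, rfl⟩ := hw
  have h1 : g (Fintype.linearCombination ℂ v a) = a := by
    have h2 := LinearMap.congr_fun hg a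
    exact h2
  rw [h1, Fintype.linearCombination_apply]

/-- The matrix of one basis in another one is invertible. -/
theorem det_ne_of_basis {v η : Fin m → W} (hη : LinearIndependent ℂ η) {Y : Matrix (Fin m) (Fin m) ℂ} (h : ∀ i, η i = ∑ j, Y i j • v j) :
    Y.det ≠ 0 := by
  intro h0
  obtain ⟨u, hu, hu0⟩ := Matrix.exists_vecMul_eq_zero_iff.2 h0
  apply hu
  have h1 : ∑ i, u i • η i = 0 := by
    simp only [h, Finset.smul_sum, smul_smul]
    rw [Finset.sum_comm]
    refine Finset.sum_eq_zero fun j _ => ?_
    rw [← Finset.sum_smul]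
    have h2 := congrFun hu0 j
    rw [Matrix.vecMul, dotProduct] at h2
    rw [h2, Pi.zero_apply, zero_smul]
  funext i
  exact (Fintype.linearIndependent_iff.1 hη) u h1 i

/-- Combinations of a linearly independent family with an invertible minor are independent. -/
theorem indep_of_minor {n : ℕ} {ω : Fin n → W} (hω : LinearIndependent ℂ ω)
    {e : Matrix (Fin m) (Fin n) ℂ} {J : Fin m → Fin n} (hJ : (e.submatrix id J).det ≠ 0) :
    LinearIndependent ℂ fun i => ∑ j, e i j • ω j := by
  rw [Fintype.linearIndependent_iff]
  intro u hu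
  have h1 : ∑ j, (∑ i, u i * e i j) • ω j = 0 := by
    rw [← hu]
    simp only [Finset.smul_sum, smul_smul, Finset.sum_smul]
    exact Finset.sum_comm
  have h2 := (Fintype.linearIndependent_iff.1 hω) _ h1
  have h3 : u ᵥ* (e.submatrix id J) = 0 := by
    funext l
    exact h2 (J l)
  by_contra hcon
  push Not at hcon
  obtain ⟨i, hi⟩ := hcon
  exact hJ (Matrix.exists_vecMul_eq_zero_iff.1 ⟨u, fun h0 => hi (congrFun h0 i), h3⟩)

/-- Coefficients in an independent family are unique. -/
theorem coeff_unique {n : ℕ} {ω : Fin n → W} (hω : LinearIndependent ℂ ω) {a b : Fin n → ℂ}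
    (h : ∑ j, a j • ω j = ∑ j, b j • ω j) : a = b := by
  have h1 : ∑ j, (a j - b j) • ω j = 0 := by
    simp only [sub_smul, Finset.sum_sub_distrib, h, sub_self]
  funext j
  exact sub_eq_zero.1 ((Fintype.linearIndependent_iff.1 hω) _ h1 j)

end GD
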