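import Pool.Agent.H26.DT.Final
import Pool.Agent.H26.FM.Defs
import Pool.Agent.H26.FM.Jac
import Pool.Agent.H26.FM.Ana
import Pool.Agent.H26.FM.Lin

/-!
# Combinations of the algebraic frame
-/

noncomputable section

namespace GD

open Complex Polynomial

variable {S T : Str} (V : Deform S T) {m : ℕ}

/-- The eigenspaces of the action `ι` on `M` are algebraic subbundles, and have the same Hodge
numbers in the fibre `T`. -/
def Deform.FlatSub {M : Submodule ℚ S.W} {K : Type} [Field K]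
    (ι : K →+* Module.End ℂ (S.cx M)) : Prop :=
  ∀ τ, V.AlgSub (eig ι τ) ∧ ∀ p,
    Module.finrank ℂ ((eig ι τ).map V.par.toLinearMap ⊓ T.hodge p : Submodule ℂ T.W) =
      Module.finrank ℂ (eig ι τ ⊓ S.hodge p : Submodule ℂ S.W)

theorem Deform.map_comb (c : Matrix (Fin m) (Fin V.n) Qbar[X]) (f : S.W →ₗ[ℂ] ℂ) (i : Fin m)
    (x : ℂ) : f (V.comb c i x) = ∑ j, aeval x (c i j) * f (V.ω j x) := by
  simp only [Deform.comb, map_sum, map_smul, smul_eq_mul]

theorem Deform.hasDerivAt_comb (c : Matrix (Fin m) (Fin V.n) Qbar[X]) (f : S.W →ₗ[ℂ] ℂ) {x : ℂ}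
    (hx : x ∈ V.U) (i : Fin m) :
    HasDerivAt (fun y => f (V.comb c i y))
      (f (V.comb (V.q • c.map derivative + c * V.P) i x) / aeval x V.q) x := by
  have h1 : (fun y => f (V.comb c i y)) = fun y => ∑ j, aeval y (c i j) * f (V.ω j y) := by
    funext y
    exact V.map_comb c f i y
  rw [h1]
  have h2 : HasDerivAt (fun y => ∑ j, aeval y (c i j) * f (V.ω j y))
      (∑ j, (aeval x (derivative (c i j)) * f (V.ω j x) +
        aeval x (c i j) * ((∑ l, aeval x (V.P j l) * f (V.ω l x)) / aeval x V.q))) x :=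
    HasDerivAt.fun_sum fun j _ => (hasDerivAt_aeval' (c i j) x).fun_mul (V.der f x hx j)
  refine h2.congr_deriv ?_
  have hq := V.q_ne x hx
  rw [eq_div_iff hq, V.map_comb, Finset.sum_mul]
  have h3 : ∀ j, aeval x ((V.q • c.map derivative + c * V.P) i j) * f (V.ω j x) =
      aeval x V.q * aeval x (derivative (c i j)) * f (V.ω j x) +
        ∑ l, aeval x (c i l) * (aeval x (V.P l j) * f (V.ω j x)) := by
    intro j
    rw [Matrix.add_apply, Matrix.smul_apply, Matrix.map_apply, Matrix.mul_apply, map_add,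
      smul_eq_mul, map_mul, map_sum, add_mul, Finset.sum_mul]
    congr 1
    refine Finset.sum_congr rfl fun l _ => ?_
    rw [map_mul]
    ring
  have h4 : ∀ j, (aeval x (derivative (c i j)) * f (V.ω j x) +
        aeval x (c i j) * ((∑ l, aeval x (V.P j l) * f (V.ω l x)) / aeval x V.q)) * aeval x V.q =
      aeval x V.q * aeval x (derivative (c i j)) * f (V.ω j x) +
        ∑ l, aeval x (c i j) * (aeval x (V.P j l) * f (V.ω l x)) := by
    intro j
    rw [← Finset.mul_sum]
    field_simp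
  rw [Finset.sum_congr rfl fun j _ => h3 j, Finset.sum_congr rfl fun j _ => h4 j,
    Finset.sum_add_distrib, Finset.sum_add_distrib]
  congr 1
  exact Finset.sum_comm

theorem Deform.continuousAt_comb (c : Matrix (Fin m) (Fin V.n) Qbar[X]) (f : S.W →ₗ[ℂ] ℂ) {x : ℂ}
    (hx : x ∈ V.U) (i : Fin m) : ContinuousAt (fun y => f (V.comb c i y)) x :=
  (V.hasDerivAt_comb c f hx i).continuousAt

/-- Equality off the zeros of a polynomial implies equality. -/
theorem eq_of_off {U : Set ℂ} (hU : IsOpen U) {r : Qbar[X]} (hr : r ≠ 0) {f g : ℂ → ℂ}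
    (hf : ∀ x ∈ U, ContinuousAt f x) (hg : ∀ x ∈ U, ContinuousAt g x)
    (h : ∀ x ∈ U, aeval x r ≠ 0 → f x = g x) : ∀ x ∈ U, f x = g x := by
  intro x₀ hx₀
  have hfin : {x : ℂ | aeval x r = 0}.Finite := by
    have h1 : r.map (algebraMap Qbar ℂ) ≠ 0 :=
      (Polynomial.map_ne_zero_iff (algebraMap Qbar ℂ).injective).2 hr
    refine (finite_setOfPred_isRoot h1).subset fun x hx => ?_
    change (r.map (algebraMap Qbar ℂ)).IsRoot x
    rw [IsRoot, eval_map_algebraMap]
    exact hx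
  refine eq_of_punctured (hf x₀ hx₀) (hg x₀ hx₀) (U := U ∩ ({x | aeval x r = 0} \ {x₀})ᶜ)
    (hU.inter (hfin.subset Set.sdiff_subset).isClosed.isOpen_compl) ⟨hx₀, fun h0 => h0.2 rfl⟩ ?_
  rintro x ⟨hx, hx'⟩ hne
  exact h x hx fun h0 => hx' ⟨h0, hne⟩

/-- Membership in a subspace is tested by linear forms. -/
theorem mem_of_forms {W : Type} [AddCommGroup W] [Module ℂ W] {L : Submodule ℂ W} {w : W}
    (h : ∀ f : W →ₗ[ℂ] ℂ, (∀ y ∈ L, f y = 0) → f w = 0) : w ∈ L := by
  by_contra hw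
  obtain ⟨f, hf, hfL⟩ := Submodule.exists_le_ker_of_notMem hw
  exact hf (h f fun y hy => hfL hy)

/-- Sections which lie in `L` for almost all parameters lie in `L`. -/
theorem Deform.comb_mem {L : Submodule ℂ S.W} (c : Matrix (Fin m) (Fin V.n) Qbar[X]) (i : Fin m)
    {r : Qbar[X]} (hr : r ≠ 0) (h : ∀ x ∈ V.U, aeval x r ≠ 0 → V.comb c i x ∈ L) :
    ∀ x ∈ V.U, V.comb c i x ∈ L := by
  intro x hx
  refine mem_of_forms fun f hf => ?_
  exact eq_of_off V.isOpen hr (f := fun y => f (V.comb c i y)) (g := fun _ => 0)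
    (fun y hy => V.continuousAt_comb c f hy i) (fun y _ => continuousAt_const)
    (fun y hy h0 => hf _ (h y hy h0)) x hx

/-- The connection preserves the sections of `L`. -/
theorem Deform.conn_mem {L : Submodule ℂ S.W} (c : Matrix (Fin m) (Fin V.n) Qbar[X]) (i : Fin m)
    (h : ∀ x ∈ V.U, V.comb c i x ∈ L) :
    ∀ x ∈ V.U, V.comb (V.q • c.map derivative + c * V.P) i x ∈ L := by
  intro x hx
  refine mem_of_forms fun f hf => ?_
  have h1 := V.hasDerivAt_comb c f hx i
  have h2 : (fun y => f (V.comb c i y)) =ᶠ[nhds x] fun _ => 0 := by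
    filter_upwards [V.isOpen.mem_nhds hx] with y hy
    exact hf _ (h y hy)
  have h3 := (h1.congr_of_eventuallyEq h2.symm).unique (hasDerivAt_const x (0 : ℂ))
  exact (div_eq_zero_iff.1 h3).resolve_right (V.q_ne x hx)

end GD
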