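import Pool.Agent.H26.FM.Fac
import Pool.Agent.H27.GD.Isot
import Pool.Agent.H44.FM.Mult

/-!
# The class reached by families: central actions
-/

noncomputable section

namespace GD

open Complex NumberField

section rel

variable {S : Str} {K : Type} [Field K] [NumberField K]

/-- The relation for a simple substructure from the relation for a restriction of the action on its
isotypic part. -/
theorem rel_of_restriction {M : Submodule ℚ S.W} (hM : IsSimple S M)
    (ι : K →+* Module.End ℂ (S.cx M)) (hι : IsCentral ι) {κ φ : K →ₙ+* Module.End ℂ S.W}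
    (hκ : CentralAction κ)
    (hiso : ∀ p : Module.End ℂ S.W, IsHom S S p → p * p = p → p * κ 1 = p → p ≠ 0 →
      ∃ (s : ℕ) (u : Fin s → Module.End ℂ S.W), 0 < s ∧ (∀ j, IsHom S S (u j)) ∧
        (∀ j, ∀ x ∈ S.cx M, u j x = 0 → x = 0) ∧
        (∀ j a (x : S.cx M), κ a (u j x) = u j (ι a x)) ∧
        iSupIndep (fun j => (S.cx M).map (u j)) ∧
        ⨆ j, (S.cx M).map (u j) = LinearMap.range p)
    (hφ : IsRestriction κ φ) {M' : Submodule ℚ S.W} {ι' : K →+* Module.End ℂ (S.cx M')}
    (hM' : IsSub S M') (hι' : ∀ a, IsEnd S M' (ι' a)) (hcx : S.cx M' = LinearMap.range (φ 1))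
    (hact : ∀ a (x : S.cx M'), (ι' a x : S.W) = φ a x) {e : K →+* ℂ} (h : DetRelation ι' e) :
    DetRelation ι e := by
  obtain ⟨h0, hp, hφκ⟩ := hφ
  have hpp : φ 1 * φ 1 = φ 1 := by rw [← map_mul, one_mul]
  have hpκ : φ 1 * κ 1 = φ 1 := by
    rw [hκ.2.2 _ hp 1]
    exact (hφκ 1).symm
  obtain ⟨s, u, hs, hu, hinj, hua, hind, hsup⟩ := hiso (φ 1) hp hpp hpκ h0
  have hmem : ∀ j, ∀ x ∈ S.cx M, u j x ∈ S.cx M' := by
    intro j x hx
    rw [hcx, ← hsup]
    exact Submodule.mem_iSup_of_mem j (Submodule.mem_map_of_mem hx)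
  refine detRelation_of_mult hM.sub hM' ι hι.isEnd ι' hι' hs u hu hinj hmem ?_ hind
    (by rw [hsup, hcx]) h
  intro j a x y hxy
  rw [hact, ← hua, hφκ, hxy]
  have hy : φ 1 y = y := by
    have h1 : (y : S.W) ∈ LinearMap.range (φ 1) := by
      rw [← hcx]
      exact y.2
    obtain ⟨w, hw⟩ := h1
    rw [← hw]
    exact LinearMap.congr_fun hpp w
  rw [Module.End.mul_apply, hy]

end rel

theorem Gen.mono_of {C C' : Str → Prop} (h : ∀ S, C S → Gen C' S) {R : Str} (hR : Gen C R) :
    Gen C' R := by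
  induction hR with
  | base R h1 => exact h R h1
  | lin R n P f _ h2 h3 ih => exact Gen.lin R n P f ih h2 h3
  | ten R n P Q μ _ _ h3 h4 ih1 ih2 => exact Gen.ten R n P Q μ ih1 ih2 h3 h4

section main

variable {C₀ : Str → Prop} {F : Type} [Field F] [NumberField F] {e : F →+* ℂ}

omit [NumberField F] in
/-- The relation for the simple substructures from the relation for the central actions. -/
theorem detFor_of_central (hB : ∀ S, C₀ S → Nonempty (Pol S)) (h : CentralFor C₀ e) :
    DetFor C₀ e := by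
  intro K _ _ i him hG hc S hS M hM ι hι
  obtain ⟨P⟩ := hB S hS
  obtain ⟨κ, hκ, hiso⟩ := exists_isot P hM ι hι
  obtain ⟨M', ι', hM', -, hι', heig', hMQ', hcx', hact'⟩ := exists_sub κ hκ.2.1 hκ.1
  have h1 : FactorRelation κ (e.comp i) := h K i him hG hc S hS κ hκ
  refine rel_of_restriction hM ι hι hκ hiso ⟨hκ.1, hκ.2.1 1, fun a => by rw [← map_mul, mul_one]⟩
    hM' hι' hcx' hact' ?_
  intro d _ hd ε hε l τ hτ z hz
  refine h1 d hd ε (fun l' τ' hτ' => ?_) l τ hτ z
    (factorPeriod_of hM'.le (fun τ => (heig' τ).symm) hz)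
  rw [factorType_eq fun τ => (heig' τ).symm]
  exact hε l' τ' hτ'

/-- The relation for the central actions from the relation for the triples. -/
theorem central_of_triples (hB : ∀ S, C₀ S → Nonempty (Pol S)) (he : ∃ d, LiesIn e d)
    (h₀ : TriplesFor (Gen C₀) e) : CentralFor C₀ e := by
  intro K _ _ i him hG hc S hS κ hκ
  obtain ⟨P⟩ := hB S hS
  obtain ⟨M, ι, hM, hne, hι, hικ, hMQ, -, -⟩ := exists_sub κ hκ.2.1 hκ.1
  have hex' : ∃ d, LiesIn (e.comp i) d := by
    obtain ⟨d, hd⟩ := he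
    exact ⟨d, hd.1, fun x => hd.2 (i x)⟩
  obtain ⟨k, -, f, hfc, hfp⟩ := DT.exists_fam_tpow ι P hM hne hι
  have hrel : DetRelation ι (e.comp i) := by
    refine detRelation_of hM.le ι hex' f hfc hfp fun A => ?_
    exact det_suffices hB (e.comp i) hex'
      (detFor_sub i (DT.det_of_relation gammaSpec hB e he h₀))
      (powOf_gen (Gen.base S hS) (powOf_tpow S k)) A
  intro d _ hd ε hε l τ hτ z hz
  refine hrel d hd ε (fun l' τ' hτ' => ?_) l τ hτ z (detPeriod_of hικ hMQ hz)
  rw [← factorType_eq fun τ => (hικ τ).symm]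
  exact hε l' τ' hτ'

/-- The relation for a flat action. -/
theorem det_of_flat (hP₀ : ∀ T, C₀ T → Nonempty (Pol T)) (he : ∃ d, LiesIn e d)
    (h₀ : TriplesFor (Gen C₀) e) {K : Type} [Field K] [NumberField K] (i : K →+* F) {S T : Str}
    (hT : C₀ T) (V : Deform S T) {M : Submodule ℚ S.W} (hM : IsSub S M) (hM0 : M ≠ ⊥)
    {ι : K →+* Module.End ℂ (S.cx M)} (hι : ∀ a, IsEnd S M (ι a)) (hV : V.FlatSub ι) :
    DetRelation ι (e.comp i) := by
  obtain ⟨N, κ, hN, hκ, hMN, hact⟩ := V.transport hM ι hι hV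
  obtain ⟨P₀⟩ := hP₀ T hT
  have hex' : ∃ d, LiesIn (e.comp i) d := by
    obtain ⟨d, hd⟩ := he
    exact ⟨d, hd.1, fun x => hd.2 (i x)⟩
  have hne : N ≠ ⊥ := by
    intro h0
    apply hM0
    rw [Submodule.eq_bot_iff]
    intro x hx
    have h1 : V.par x ∈ N := (hMN _).1 hx
    rw [h0, Submodule.mem_bot] at h1
    exact (LinearEquiv.map_eq_zero_iff V.par).1 h1
  obtain ⟨k, -, f, hfc, hfp⟩ := DT.exists_fam_tpow κ P₀ hN hne hκ
  have hrel : DetRelation κ (e.comp i) := by
    refine detRelation_of hN.le κ hex' f hfc hfp fun A => ?_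
    exact det_suffices hP₀ (e.comp i) hex'
      (detFor_sub i (DT.det_of_relation gammaSpec hP₀ e he h₀))
      (powOf_gen (Gen.base T hT) (powOf_tpow T k)) A
  intro d _ hd ε hε l τ hτ z hz
  obtain ⟨z', hz', hsim⟩ := par_period hM.le hMN hact (hV τ).1 hz
  exact hsim.trans (hrel d hd ε (fun l' τ' hτ' => by
    rw [par_type hV hMN hact]
    exact hε l' τ' hτ') l τ hτ z' hz')

/-- The relation for the simple substructures of a structure whose central actions are flat. -/
theorem detFor_of_flat (hP₀ : ∀ T, C₀ T → Nonempty (Pol T)) (he : ∃ d, LiesIn e d)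
    (h₀ : TriplesFor (Gen C₀) e) {S : Str} (P : Pol S) (h : FlatInto C₀ S e) :
    DetFor (fun R => R = S) e := by
  intro K _ _ i him hG hc S' hS' M hM ι hι
  subst hS'
  obtain ⟨κ, hκ, hiso⟩ := exists_isot P hM ι hι
  obtain ⟨φ, hφ, T, hT, V, hV⟩ := h K i him hG hc κ hκ
  have hφa : ∀ a, IsHom S' S' (φ a) := fun a => by
    rw [hφ.2.2 a]
    exact (hκ.2.1 a).comp hφ.2.1
  obtain ⟨M', ι', hM', hne', hι', heig', -, hcx', hact'⟩ := exists_sub φ hφa hφ.1
  refine rel_of_restriction hM ι hι hκ hiso hφ hM' hι' hcx' hact' ?_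
  refine det_of_flat hP₀ he h₀ i hT V hM' hne' hι' fun τ => ?_
  have h1 := hV τ
  rwa [← heig'] at h1

/-- The Gross-Deligne relation holds for all admissible triples in the structures reached from
`C₀` if and only if it holds for the determinants of the central actions on the members of `C₀`. -/
theorem reached_iff (hB : ∀ S, C₀ S → Nonempty (Pol S)) (he : ∃ d, LiesIn e d) :
    (∀ R, Reached C₀ e R → ∀ A : Adm R F, Relation A e) ↔ CentralFor C₀ e := by
  constructor
  · intro h
    refine central_of_triples hB he fun R hR A => h R ?_ A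
    intro C h1 _ h3 _
    exact h3 R (Gen.mono_of (fun S hS => Gen.base S (h1 S hS)) hR)
  · intro h R hR A
    have hD := detFor_of_central hB h
    let C : Str → Prop := fun S => Nonempty (Pol S) ∧ DetFor (fun R => R = S) e
    have hP : ∀ S, C S → Nonempty (Pol S) := fun S hS => hS.1
    have hC : DetFor C e := fun K _ _ i him hG hc S hS M hM ι hι =>
      hS.2 K i him hG hc S rfl M hM ι hι
    have hT : TriplesFor (Gen C) e := fun R hR A => det_suffices hP e he hC hR A
    refine hT R (hR (Gen C) ?_ ?_ ?_ ?_) A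
    · intro S h1
      refine Gen.base S ⟨hB S h1, ?_⟩
      intro K _ _ i him hG hc S' hS' M hM ι hι
      exact hD K i him hG hc S' (by rw [hS']; exact h1) M hM ι hι
    · intro S h1 h2
      refine Gen.base S ⟨h1, ?_⟩
      exact triples_gamma (fun R => R = S) (fun R hR => hR ▸ h1) (fun R hR => hR ▸ h2) e he
    · exact fun S hS => Gen.mono_of (fun _ h => h) hS
    · rintro S ⟨P⟩ h2
      refine Gen.base S ⟨⟨P⟩, ?_⟩
      refine detFor_of_flat (C₀ := fun T => Nonempty (Pol T) ∧ Gen C T) (fun T hT => hT.1) he ?_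
        P h2
      exact fun R hR A => hT R (Gen.mono_of (fun T hT => hT.2) hR) A

end main

end GD
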