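import Pool.Agent.H26.DT.Gen

/-!
# Actions of fields on factors, and the relation for their determinants
-/

noncomputable section

namespace GD

open Complex

variable {S : Str} {K : Type} [Field K]

/-- The field `K` acts by `κ` on a factor of `S`, the image of the projector `κ 1`, through the
centre of the algebra of endomorphisms of `S`. -/
def CentralAction (κ : K →ₙ+* Module.End ℂ S.W) : Prop :=
  κ 1 ≠ 0 ∧ (∀ a, IsHom S S (κ a)) ∧ ∀ f, IsHom S S f → ∀ a, f * κ a = κ a * f

/-- The action `φ` is the restriction of the action `κ` to a factor of `S` which is not zero, the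
image of the projector `φ 1`. -/
def IsRestriction (κ φ : K →ₙ+* Module.End ℂ S.W) : Prop :=
  φ 1 ≠ 0 ∧ IsHom S S (φ 1) ∧ ∀ a, φ a = κ a * φ 1

/-- The subspace on which `K` acts by `κ` through the embedding `τ`. -/
def eigenpart (κ : K →ₙ+* Module.End ℂ S.W) (τ : K →+* ℂ) :
    Submodule ℂ S.W :=
  ⨅ a, Module.End.eigenspace (κ a) (τ a)

section factor

variable (κ : K →ₙ+* Module.End ℂ S.W)

/-- The Hodge type of the determinant of the part on which `K` acts through `τ`: the sum of the `p`
in the Hodge types `(p, q)` of this part, counted with multiplicity. -/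
def factorType (τ : K →+* ℂ) : ℕ :=
  ∑ p ∈ Finset.range (S.wt + 1),
    p * Module.finrank ℂ (eigenpart κ τ ⊓ S.hodge p : Submodule ℂ S.W)

/-- `z` is a determinant of periods of the part on which `K` acts through `τ`: the determinant of a
matrix which expresses a basis consisting of de Rham vectors in a basis `v` consisting of vectors of
the span of the rational form over the algebraic numbers. -/
def IsFactorPeriod (τ : K →+* ℂ) (z : ℂ) : Prop :=
  ∃ (n : ℕ) (v : Fin n → S.W) (P : Matrix (Fin n) (Fin n) ℂ), LinearIndependent ℂ v ∧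
    Submodule.span ℂ (Set.range v) = eigenpart κ τ ∧
    (∀ i, v i ∈ Submodule.span Qbar (S.B : Set S.W) ∧ ∑ j, P i j • v j ∈ S.D) ∧
    z = P.det ∧ z ≠ 0

/-- The Gross-Deligne relation for the determinant of the factor over `K`, at the conductor. -/
def FactorRelation (e : K →+* ℂ) : Prop :=
  ∀ (d : ℕ) [NeZero d], d = conductor e → ∀ ε : ZMod d → ℚ,
    (∀ (l : (ZMod d)ˣ) (τ : K →+* ℂ), IsPhi e d l τ → (d : ℚ) * factorType κ τ =
      ∑ a ∈ Finset.univ.erase (0 : ZMod d), ε a * (((l : ZMod d) * a).val : ℚ)) →
    ∀ (l : (ZMod d)ˣ) (τ : K →+* ℂ), IsPhi e d l τ → ∀ z, IsFactorPeriod κ τ z →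
      Sim z (gammaProd d ε l)

end factor

/-- The Gross-Deligne relation holds for the determinants, over the imaginary cyclic fields `K`
with an embedding `i` in `F`, of the factors of the structures in the class `C₀` on which `K` acts
through the centre of the endomorphisms. -/
def CentralFor (C₀ : Str → Prop) {F : Type} [Field F] (e : F →+* ℂ) : Prop :=
  ∀ (K : Type) [Field K] [NumberField K] (i : K →+* F), (∃ x, (e (i x)).im ≠ 0) →
    IsGalois ℚ K → IsCyclic (K ≃ₐ[ℚ] K) → ∀ S, C₀ S →
      ∀ κ : K →ₙ+* Module.End ℂ S.W, CentralAction κ → FactorRelation κ (e.comp i)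

end GD
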