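import Pool.Agent.H26.FM.Defs
import Pool.Agent.H44.FM.GammaDefs

/-!
# The class reached by families
-/

noncomputable section

namespace GD

open Complex

/-- The structure `R` is reached from the class `C₀`: it lies in every class `C` of structures which
contains `C₀` and the polarised structures of gamma type, which is closed under tensor products,
direct sums and quotients, and which contains every polarised structure `S` such that the actions
of imaginary cyclic subfields of `F` through the centre of the endomorphisms of `S` are flat in
families with a polarised fibre in the class `C`. -/
def Reached (C₀ : Str → Prop) {F : Type} [Field F] (e : F →+* ℂ) (R : Str) : Prop :=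
  ∀ C : Str → Prop, (∀ S, C₀ S → C S) → (∀ S, Nonempty (Pol S) → GammaType S → C S) →
    (∀ S, Gen C S → C S) →
    (∀ S, Nonempty (Pol S) → FlatInto (fun T => Nonempty (Pol T) ∧ C T) S e → C S) → C R

end GD
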