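import Mathlib

/-!
# Local frames of a subbundle
-/

namespace GD

open Polynomial Matrix

variable {k : Type} [Field k] {m n : ℕ}

/-- Cramer's rule for a submatrix: the entries of `adj (c_J) * c` are minors of `c`. -/
theorem adjugate_mul_submatrix (c : Matrix (Fin m) (Fin n) k[X]) (J : Fin m → Fin n) (i : Fin m)
    (j : Fin n) :
    ((c.submatrix id J).adjugate * c) i j = (c.submatrix id (Function.update J i j)).det := by
  have h1 : c.submatrix id (Function.update J i j) =
      (c.submatrix id J).updateCol i (fun l => c l j) := by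
    ext a b
    by_cases hb : b = i
    · subst hb
      rw [submatrix_apply, Function.update_self, updateCol_self]
      rfl
    · rw [submatrix_apply, Function.update_of_ne hb, updateCol_ne hb, submatrix_apply]
  rw [h1, mul_apply, ← cramer_apply, cramer_eq_adjugate_mulVec]
  rfl

/-- A local frame: after a change of frame over the field of rational functions the rows are
linearly independent at `s`. -/
theorem exists_local_frame (c : Matrix (Fin m) (Fin n) k[X])
    (hc : ∃ J : Fin m → Fin n, (c.submatrix id J).det ≠ 0) (s : k) :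
    ∃ (e : Matrix (Fin m) (Fin n) k[X]) (Q : Matrix (Fin m) (Fin m) k[X]) (g : k[X]),
      g ≠ 0 ∧ Q.det ≠ 0 ∧ g • e = Q * c ∧
      ∃ J : Fin m → Fin n, (e.submatrix id J).det.eval s ≠ 0 := by
  classical
  -- the minor with the smallest order of vanishing
  obtain ⟨J, hJ, hmin⟩ : ∃ J : Fin m → Fin n, (c.submatrix id J).det ≠ 0 ∧
      ∀ J' : Fin m → Fin n, (c.submatrix id J').det ≠ 0 →
        (c.submatrix id J).det.rootMultiplicity s ≤ (c.submatrix id J').det.rootMultiplicity s := by
    let A := {J : Fin m → Fin n | (c.submatrix id J).det ≠ 0}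
    have hA : A.Nonempty := hc
    obtain ⟨J, hJ, hmin⟩ := Set.exists_min_image A
      (fun J => (c.submatrix id J).det.rootMultiplicity s) (Set.toFinite A) hA
    exact ⟨J, hJ, hmin⟩
  set D := (c.submatrix id J).det with hD
  set a := D.rootMultiplicity s with ha
  have hdvd : ∀ i j, (X - C s) ^ a ∣ ((c.submatrix id J).adjugate * c) i j := by
    intro i j
    rw [adjugate_mul_submatrix]
    by_cases h0 : (c.submatrix id (Function.update J i j)).det = 0
    · rw [h0]
      exact dvd_zero _
    · exact (le_rootMultiplicity_iff h0).1 (hmin _ h0)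
  choose e he using hdvd
  obtain ⟨d, hd⟩ := (le_rootMultiplicity_iff hJ).1 (le_refl a)
  have hds : d.eval s ≠ 0 := by
    intro h0
    have h1 : (X - C s) ∣ d := dvd_iff_isRoot.2 h0
    have h2 : (X - C s) ^ (a + 1) ∣ D := by
      rw [hd, pow_succ]
      exact mul_dvd_mul_left _ h1
    exact absurd ((le_rootMultiplicity_iff hJ).2 h2) (by rw [← ha]; omega)
  refine ⟨Matrix.of e, (c.submatrix id J).adjugate, (X - C s) ^ a, ?_, ?_, ?_, J, ?_⟩
  · exact pow_ne_zero _ (X_sub_C_ne_zero s)
  · rw [det_adjugate]
    exact pow_ne_zero _ hJ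
  · ext1 i j
    rw [Matrix.smul_apply, smul_eq_mul, he, Matrix.of_apply]
  · have h1 : (Matrix.of e).submatrix id J = d • (1 : Matrix (Fin m) (Fin m) k[X]) := by
      ext1 i j
      apply mul_left_cancel₀ (pow_ne_zero a (X_sub_C_ne_zero s))
      have h2 : (X - C s) ^ a * ((Matrix.of e).submatrix id J) i j =
          ((c.submatrix id J).adjugate * c) i (J j) := (he i (J j)).symm
      have h3 : ((c.submatrix id J).adjugate * c) i (J j) =
          ((c.submatrix id J).adjugate * (c.submatrix id J)) i j := rfl
      rw [h2, h3, adjugate_mul, Matrix.smul_apply, Matrix.smul_apply, ← hD, smul_eq_mul,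
        smul_eq_mul, ← mul_assoc, ← hd]
    rw [h1, det_smul, det_one, mul_one, eval_pow]
    exact pow_ne_zero _ hds

end GD
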