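import Pool.Agent.H44.FM.Glue
import Pool.Agent.H27.GD.PFrac

/-!
# The trace of the connection on an algebraic subbundle is a logarithmic derivative

(helper44, with the local part of helper27 in `Pool/Agent/H27/GD/Local.lean` and
`Pool/Agent/H27/GD/PFrac.lean`.)

`c` is a frame of a subbundle (rows independent over the field of rational functions), stable under
the connection `c ↦ c' + c * P / q`, with matrix `H / r` on the subbundle.
-/

namespace GD

open Polynomial

theorem exists_log {k : Type} [Field k] [IsAlgClosed k] [CharZero k] {n m : ℕ}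
    (P : Matrix (Fin n) (Fin n) k[X]) (q : k[X]) (hq : q ≠ 0) (hreg : ∀ a, RegularAt P q a)
    (hinf : RegularInf P q) (c : Matrix (Fin m) (Fin n) k[X])
    (hc : ∃ J : Fin m → Fin n, (c.submatrix id J).det ≠ 0)
    (H : Matrix (Fin m) (Fin m) k[X]) (r : k[X]) (hr : r ≠ 0)
    (hH : r • (q • c.map derivative + c * P) = q • (H * c)) :
    ∃ (N : ℕ) (R₁ R₂ : k[X]), 0 < N ∧ R₁ ≠ 0 ∧ R₂ ≠ 0 ∧
      (derivative R₁ * R₂ - R₁ * derivative R₂) * r = (N : k[X]) * H.trace * R₁ * R₂ := by
  obtain ⟨l, hl⟩ := FM.takesInf_trace P q hq hinf c hc H r hr hH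
  exact exists_isLog r.natDegree H.trace r rfl hr
    (fun a => FM.takes_trace P q hq a (hreg a) c hc H r hr hH) ⟨l, hl⟩

end GD
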