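import Pool.Agent.H26.FM.Comb
import Pool.Agent.H26.FM.Log
import Pool.Agent.H26.FM.Frame

/-!
# Periods of an algebraic subbundle at the two fibres
-/

noncomputable section

namespace GD

open Complex Polynomial

variable {S T : Str} (V : Deform S T) {m : ℕ}

theorem isAlgClosed_Qbar : IsAlgClosed Qbar := by
  have h : IsAlgClosure ℚ Qbar := algebraicClosure.isAlgClosure ℚ ℂ
  exact IsAlgClosure.isAlgClosed ℚ

theorem Deform.nonempty : V.U.Nonempty := ⟨_, V.hs⟩

/-- Linear combinations of sections. -/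
theorem Deform.comb_mul {l : ℕ} (Q : Matrix (Fin l) (Fin m) Qbar[X])
    (c : Matrix (Fin m) (Fin V.n) Qbar[X]) (i : Fin l) (x : ℂ) :
    V.comb (Q * c) i x = ∑ k, aeval x (Q i k) • V.comb c k x := by
  simp only [Deform.comb, Finset.smul_sum, smul_smul, Matrix.mul_apply, map_sum, map_mul,
    Finset.sum_smul]
  exact Finset.sum_comm

theorem Deform.comb_smul (p : Qbar[X]) (c : Matrix (Fin m) (Fin V.n) Qbar[X]) (i : Fin m)
    (x : ℂ) : V.comb (p • c) i x = aeval x p • V.comb c i x := by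
  simp only [Deform.comb, Finset.smul_sum, smul_smul, Matrix.smul_apply, smul_eq_mul, map_mul]

/-- A frame has an invertible minor. -/
theorem Deform.frame_minor (c : Matrix (Fin m) (Fin V.n) Qbar[X]) {r : Qbar[X]} (hr : r ≠ 0)
    (h : ∀ x ∈ V.U, aeval x r ≠ 0 → LinearIndependent ℂ fun i => V.comb c i x) :
    ∃ J : Fin m → Fin V.n, (c.submatrix id J).det ≠ 0 := by
  obtain ⟨x, hx, hrx⟩ := exists_generic V.isOpen V.nonempty hr
  have h1 := h x hx hrx
  have h2 : LinearIndependent ℂ fun i => (c.map (fun p => aeval x p) : Matrix _ _ ℂ) i := by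
    rw [Fintype.linearIndependent_iff] at h1 ⊢
    intro u hu i
    refine h1 u ?_ i
    have h3 : ∀ j, ∑ i, u i * aeval x (c i j) = 0 := by
      intro j
      have h4 := congrFun hu j
      rw [Finset.sum_apply] at h4
      exact h4
    simp only [Deform.comb, Finset.smul_sum, smul_smul]
    rw [Finset.sum_comm]
    refine Finset.sum_eq_zero fun j _ => ?_
    rw [← Finset.sum_smul, h3, zero_smul]
  obtain ⟨J, hJ⟩ := exists_minor _ h2
  refine ⟨J, fun h0 => hJ ?_⟩
  have h3 : (c.map (fun p => aeval x p) : Matrix _ _ ℂ).submatrix id J =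
      (aeval x : Qbar[X] →ₐ[Qbar] ℂ).mapMatrix (c.submatrix id J) := rfl
  rw [h3, ← AlgHom.map_det, h0, map_zero]

/-- The matrix of the connection on the subbundle. -/
theorem Deform.stable {L : Submodule ℂ S.W} (c : Matrix (Fin m) (Fin V.n) Qbar[X]) {r : Qbar[X]}
    (hr : r ≠ 0) (h : ∀ x ∈ V.U, aeval x r ≠ 0 →
      Submodule.span ℂ (Set.range fun i => V.comb c i x) = L) (J : Fin m → Fin V.n) :
    (c.submatrix id J).det • (V.q • c.map derivative + c * V.P) =
      ((V.q • c.map derivative + c * V.P).submatrix id J * (c.submatrix id J).adjugate) * c := by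
  set Z := V.q • c.map derivative + c * V.P with hZ
  have hL : ∀ i, ∀ x ∈ V.U, V.comb c i x ∈ L := fun i => V.comb_mem c i hr (by
    intro x hx h0
    rw [← h x hx h0]
    exact Submodule.subset_span (Set.mem_range_self i))
  have hcl : ∀ i, ∀ x ∈ V.U, V.comb Z i x ∈ L := fun i => V.conn_mem c i (hL i)
  ext1 i j
  rw [← sub_eq_zero]
  refine poly_zero V.isOpen V.nonempty hr fun x hx h0 => ?_
  have h1 : ∀ i, ∃ a : Fin m → ℂ, ∑ l, a l • V.comb c l x = V.comb Z i x := by
    intro i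
    have h2 := hcl i x hx
    rw [← h x hx h0] at h2
    exact (Submodule.mem_span_range_iff_exists_fun ℂ).1 h2
  choose a ha using h1
  -- `Z (x) = a * c (x)`
  let cx : Matrix (Fin m) (Fin V.n) ℂ := c.map fun p => aeval x p
  let Zx : Matrix (Fin m) (Fin V.n) ℂ := Z.map fun p => aeval x p
  have h2 : Zx = Matrix.of a * cx := by
    ext1 i
    have h3 : ∑ j, Zx i j • V.ω j x = ∑ j, (Matrix.of a * cx) i j • V.ω j x := by
      have h4 := ha i
      simp only [Deform.comb, Finset.smul_sum, smul_smul] at h4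
      rw [Finset.sum_comm] at h4
      simp only [← Finset.sum_smul] at h4
      exact h4.symm
    exact congrFun (coeff_unique (V.indep x hx) h3)
  have h5 : ((cx.submatrix id J).det • Zx) =
      (Zx.submatrix id J * (cx.submatrix id J).adjugate) * cx := by
    have h6 : Zx.submatrix id J = Matrix.of a * cx.submatrix id J := by
      rw [h2]
      rfl
    rw [h6, Matrix.mul_assoc (Matrix.of a), Matrix.mul_adjugate, Matrix.mul_smul,
      Matrix.mul_one, Matrix.smul_mul, ← h2]
  have h7 := congrFun (congrFun h5 i) j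
  let φ : Qbar[X] →ₐ[Qbar] ℂ := aeval x
  have hdet : φ ((c.submatrix id J).det) = (cx.submatrix id J).det := by
    rw [AlgHom.map_det]
    rfl
  have hadj : φ.mapMatrix ((c.submatrix id J).adjugate) = (cx.submatrix id J).adjugate := by
    rw [AlgHom.map_adjugate]
    rfl
  change φ _ = 0
  rw [map_sub, sub_eq_zero, Matrix.smul_apply, smul_eq_mul, map_mul, hdet]
  rw [Matrix.smul_apply, smul_eq_mul] at h7
  refine Eq.trans h7 ?_
  rw [Matrix.mul_apply, Matrix.mul_apply, map_sum]
  refine Finset.sum_congr rfl fun l _ => ?_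
  rw [map_mul, Matrix.mul_apply, Matrix.mul_apply, map_sum, ← hadj]
  congr 1
  refine Finset.sum_congr rfl fun k _ => ?_
  rw [map_mul]
  rfl

/-- The determinant of the sections in a fixed basis satisfies a logarithmic equation. -/
theorem Deform.hasDerivAt_det (c : Matrix (Fin m) (Fin V.n) Qbar[X])
    (g : S.W →ₗ[ℂ] (Fin m → ℂ)) {H : Matrix (Fin m) (Fin m) Qbar[X]} {D : Qbar[X]}
    (hH : D • (V.q • c.map derivative + c * V.P) = H * c) {x : ℂ} (hx : x ∈ V.U)
    (hD : aeval x (V.q * D) ≠ 0) :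
    HasDerivAt (fun y => (Matrix.of fun i j => g (V.comb c i y) j).det)
      (aeval x H.trace / aeval x (V.q * D) *
        (Matrix.of fun i j => g (V.comb c i x) j).det) x := by
  have hq := V.q_ne x hx
  rw [map_mul] at hD
  have hD' : aeval x D ≠ 0 := right_ne_zero_of_mul hD
  let Hx : Matrix (Fin m) (Fin m) ℂ := fun i j => aeval x (H i j) / aeval x (V.q * D)
  have htr : aeval x H.trace / aeval x (V.q * D) = Hx.trace := by
    rw [Matrix.trace, Matrix.trace, map_sum, Finset.sum_div]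
    rfl
  rw [htr]
  refine hasDerivAt_det_of_system (Y := fun y => Matrix.of fun i j => g (V.comb c i y) j)
    (H := Hx) fun i j => ?_
  have h1 := V.hasDerivAt_comb c ((LinearMap.proj j).comp g) hx i
  refine h1.congr_deriv ?_
  have h2 : aeval x D • V.comb (V.q • c.map derivative + c * V.P) i x =
      ∑ k, aeval x (H i k) • V.comb c k x := by
    rw [← V.comb_smul, hH, V.comb_mul]
  have h3 := congrArg (fun w => g w j) h2
  simp only [map_smul, map_sum, Pi.smul_apply, smul_eq_mul, Finset.sum_apply] at h3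
  rw [Matrix.mul_apply, div_eq_iff hq, Finset.sum_mul]
  apply mul_left_cancel₀ hD'
  refine h3.trans ?_
  rw [Finset.mul_sum]
  refine Finset.sum_congr rfl fun k _ => ?_
  change _ = aeval x D * (aeval x (H i k) / aeval x (V.q * D) * g (V.comb c k x) j * aeval x V.q)
  rw [map_mul]
  field_simp

/-- The determinant of the flat coordinates of a frame of the subbundle is, up to a power, a
constant times a rational function. -/
theorem Deform.exists_flat_const {L : Submodule ℂ S.W} (c : Matrix (Fin m) (Fin V.n) Qbar[X])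
    {r : Qbar[X]} (hr : r ≠ 0)
    (h1 : ∀ x ∈ V.U, aeval x r ≠ 0 → LinearIndependent ℂ fun i => V.comb c i x)
    (h2 : ∀ x ∈ V.U, aeval x r ≠ 0 → Submodule.span ℂ (Set.range fun i => V.comb c i x) = L)
    {v : Fin m → S.W} (g : S.W →ₗ[ℂ] (Fin m → ℂ)) (hg : ∀ w ∈ L, w = ∑ j, g w j • v j) :
    ∃ (N : ℕ) (C : ℂ) (R₁ R₂ : Qbar[X]), 0 < N ∧ C ≠ 0 ∧ R₁ ≠ 0 ∧ R₂ ≠ 0 ∧
      ∀ x ∈ V.U, (Matrix.of fun i j => g (V.comb c i x) j).det ^ N * aeval x R₂ =
        C * aeval x R₁ := by
  obtain ⟨J, hJ⟩ := V.frame_minor c hr h1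
  set D := (c.submatrix id J).det with hD
  have hq : V.q ≠ 0 := fun h0 => V.q_ne _ V.hs (by rw [h0, map_zero])
  have hstab := V.stable c hr h2 J
  rw [← hD] at hstab
  set H := (V.q • c.map derivative + c * V.P).submatrix id J * (c.submatrix id J).adjugate
    with hHdef
  have hmem : ∀ i, ∀ x ∈ V.U, V.comb c i x ∈ L := fun i => V.comb_mem c i hr (by
    intro x hx h0
    rw [← h2 x hx h0]
    exact Submodule.subset_span (Set.mem_range_self i))
  have := isAlgClosed_Qbar
  obtain ⟨N, R₁, R₂, hN, hR₁, hR₂, hR⟩ := exists_log V.P V.q hq V.regular V.regular_inf c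
    ⟨J, hJ⟩ H (V.q * D) (mul_ne_zero hq hJ) (by rw [mul_smul, hstab])
  obtain ⟨C, hC, hC'⟩ := exists_const V.isOpen V.conn V.nonempty
    (δ := fun y => (Matrix.of fun i j => g (V.comb c i y) j).det)
    (r := V.q * D) (T := H.trace) (R₁ := R₁) (R₂ := R₂) (N := N) (g := r)
    (by
      intro x hx
      exact (GD.hasDerivAt_det (Y := fun y => Matrix.of fun i j => g (V.comb c i y) j)
        (Y' := Matrix.of fun i j => g (V.comb (V.q • c.map derivative + c * V.P) i x) j /
          aeval x V.q) fun i j =>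
        V.hasDerivAt_comb c ((LinearMap.proj j).comp g) hx i).differentiableAt.differentiableWithinAt)
    (mul_ne_zero hq hJ) hR₁ hR₂
    (fun x hx h0 => V.hasDerivAt_det c g hstab hx h0) hR hr
    (fun x hx h0 => det_ne_of_basis (h1 x hx h0) fun i => hg _ (hmem i x hx))
  exact ⟨N, C, R₁, R₂, hN, hC, hR₁, hR₂, hC'⟩

/-- A basis of the subbundle at a given algebraic parameter with algebraic coordinates, and its
determinant. -/
theorem Deform.local_period {L : Submodule ℂ S.W} (c : Matrix (Fin m) (Fin V.n) Qbar[X])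
    {r : Qbar[X]} (hr : r ≠ 0)
    (h1 : ∀ x ∈ V.U, aeval x r ≠ 0 → LinearIndependent ℂ fun i => V.comb c i x)
    (h2 : ∀ x ∈ V.U, aeval x r ≠ 0 → Submodule.span ℂ (Set.range fun i => V.comb c i x) = L)
    {v : Fin m → S.W} (g : S.W →ₗ[ℂ] (Fin m → ℂ)) (hg : ∀ w ∈ L, w = ∑ j, g w j • v j)
    {N : ℕ} {C : ℂ} {R₁ R₂ : Qbar[X]} (hC : C ≠ 0) (hR₁ : R₁ ≠ 0) (hR₂ : R₂ ≠ 0)
    (hδ : ∀ x ∈ V.U, (Matrix.of fun i j => g (V.comb c i x) j).det ^ N * aeval x R₂ =
        C * aeval x R₁) {s : Qbar} (hs : (s : ℂ) ∈ V.U) :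
    ∃ (a : Fin m → S.W) (Y : Matrix (Fin m) (Fin m) ℂ), LinearIndependent ℂ a ∧
      Submodule.span ℂ (Set.range a) = L ∧
      (∀ i, ∃ b : Fin V.n → Qbar, a i = ∑ j, (b j : ℂ) • V.ω j s) ∧
      (∀ i, a i = ∑ j, Y i j • v j) ∧ Y.det ≠ 0 ∧ IsAlgebraic ℚ (Y.det ^ N / C) := by
  obtain ⟨e, Q, p, hp, hQ, hpe, J, hJ⟩ := exists_local_frame c (V.frame_minor c hr h1) s
  have hmem : ∀ i, ∀ x ∈ V.U, V.comb c i x ∈ L := fun i => V.comb_mem c i hr (by
    intro x hx h0
    rw [← h2 x hx h0]
    exact Submodule.subset_span (Set.mem_range_self i))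
  have hpc : ∀ i x, aeval x p • V.comb e i x = ∑ k, aeval x (Q i k) • V.comb c k x := by
    intro i x
    rw [← V.comb_smul, hpe, V.comb_mul]
  have hemem : ∀ i, ∀ x ∈ V.U, V.comb e i x ∈ L := fun i => V.comb_mem e i hp (by
    intro x hx h0
    have h3 : V.comb e i x = (aeval x p)⁻¹ • ∑ k, aeval x (Q i k) • V.comb c k x := by
      rw [← hpc, smul_smul, inv_mul_cancel₀ h0, one_smul]
    rw [h3]
    exact Submodule.smul_mem _ _ (Submodule.sum_mem _ fun k _ =>
      Submodule.smul_mem _ _ (hmem k x hx)))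
  have hlin : LinearIndependent ℂ fun i => V.comb e i (s : ℂ) := by
    refine indep_of_minor (V.indep _ hs) (e := e.map fun p => aeval (s : ℂ) p) (J := J) ?_
    have h3 : (e.map fun p => aeval (s : ℂ) p).submatrix id J =
        (aeval (s : ℂ) : Qbar[X] →ₐ[Qbar] ℂ).mapMatrix (e.submatrix id J) := rfl
    rw [h3, ← AlgHom.map_det, aeval_coe]
    exact fun h0 => hJ (by exact_mod_cast h0)
  have hfin : Module.finrank ℂ L = m := by
    obtain ⟨x, hx, h0⟩ := exists_generic V.isOpen V.nonempty hr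
    rw [← h2 x hx h0, finrank_span_eq_card (h1 x hx h0), Fintype.card_fin]
  have hspan : Submodule.span ℂ (Set.range fun i => V.comb e i (s : ℂ)) = L := by
    apply Submodule.eq_of_le_of_finrank_eq
    · rw [Submodule.span_le]
      rintro _ ⟨i, rfl⟩
      exact hemem i _ hs
    · rw [finrank_span_eq_card hlin, Fintype.card_fin, hfin]
  have hY0 : (Matrix.of fun i j => g (V.comb e i (s : ℂ)) j).det ≠ 0 :=
    det_ne_of_basis hlin fun i => hg _ (hemem i _ hs)
  refine ⟨fun i => V.comb e i (s : ℂ), Matrix.of fun i j => g (V.comb e i (s : ℂ)) j, hlin, hspan,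
    fun i => ⟨fun j => (e i j).eval s, ?_⟩, fun i => hg _ (hemem i _ hs), hY0, ?_⟩
  · simp only [Deform.comb, aeval_coe]
  · have hcont : ∀ x ∈ V.U, ContinuousAt
        (fun y => (Matrix.of fun i j => g (V.comb e i y) j).det) x := fun x hx =>
      (GD.hasDerivAt_det (Y := fun y => Matrix.of fun i j => g (V.comb e i y) j)
        (Y' := Matrix.of fun i j => g (V.comb (V.q • e.map derivative + e * V.P) i x) j /
          aeval x V.q) fun i j =>
        V.hasDerivAt_comb e ((LinearMap.proj j).comp g) hx i).continuousAt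
    refine algebraic_of_relation V.isOpen hs (B := fun _ => C)
      (A := fun y => (Matrix.of fun i j => g (V.comb e i y) j).det ^ N)
      ((hcont _ hs).pow N) continuousAt_const (p₁ := p ^ (m * N) * R₂) (p₂ := Q.det ^ N * R₁)
      (mul_ne_zero (pow_ne_zero _ hp) hR₂) (mul_ne_zero (pow_ne_zero _ hQ) hR₁) ?_
      (pow_ne_zero _ hY0) hC
    intro x hx
    have h3 : aeval x p ^ m * (Matrix.of fun i j => g (V.comb e i x) j).det =
        aeval x Q.det * (Matrix.of fun i j => g (V.comb c i x) j).det := by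
      have h4 : aeval x p • (Matrix.of fun i j => g (V.comb e i x) j) =
          (aeval x : Qbar[X] →ₐ[Qbar] ℂ).mapMatrix Q *
            (Matrix.of fun i j => g (V.comb c i x) j) := by
        ext1 i j
        have h5 := congrArg (fun w => g w j) (hpc i x)
        simp only [map_smul, map_sum, Pi.smul_apply, smul_eq_mul, Finset.sum_apply] at h5
        exact h5
      have h5 := congrArg Matrix.det h4
      rw [Matrix.det_smul, Fintype.card_fin, Matrix.det_mul, ← AlgHom.map_det] at h5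
      exact h5
    have h4 := hδ x hx
    rw [map_mul, map_mul, map_pow, map_pow, pow_mul]
    have h5 := congrArg (fun z => z ^ N) h3
    simp only [mul_pow] at h5
    linear_combination (aeval x R₂) * h5 + (aeval x Q.det) ^ N * h4

/-- Determinants of periods of a flat algebraic subbundle at the fibres `S` and `T`. -/
theorem Deform.period {L : Submodule ℂ S.W} (hL : V.AlgSub L)
    {v : Fin m → S.W} (hv : LinearIndependent ℂ v)
    (hvL : Submodule.span ℂ (Set.range v) = L) :
    ∃ (a b : Fin m → S.W) (X Y : Matrix (Fin m) (Fin m) ℂ),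
      (LinearIndependent ℂ a ∧ Submodule.span ℂ (Set.range a) = L ∧ (∀ i, a i ∈ S.D) ∧
        ∀ i, a i = ∑ j, X i j • v j) ∧
      (LinearIndependent ℂ b ∧ Submodule.span ℂ (Set.range b) = L ∧ (∀ i, V.par (b i) ∈ T.D) ∧
        ∀ i, b i = ∑ j, Y i j • v j) ∧
      Sim X.det Y.det := by
  obtain ⟨m', c, r, hr, hcr⟩ := hL
  have hm : m' = m := by
    obtain ⟨x, hx, h0⟩ := exists_generic V.isOpen V.nonempty hr
    obtain ⟨h1, h2⟩ := hcr x hx h0
    have h3 := finrank_span_eq_card h1
    rw [h2, ← hvL, finrank_span_eq_card hv, Fintype.card_fin, Fintype.card_fin] at h3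
    exact h3.symm
  subst hm
  obtain ⟨g, hg⟩ := exists_coord hv
  rw [hvL] at hg
  have h1 : ∀ x ∈ V.U, aeval x r ≠ 0 → LinearIndependent ℂ fun i => V.comb c i x :=
    fun x hx h0 => (hcr x hx h0).1
  have h2 : ∀ x ∈ V.U, aeval x r ≠ 0 →
      Submodule.span ℂ (Set.range fun i => V.comb c i x) = L := fun x hx h0 => (hcr x hx h0).2
  obtain ⟨N, C, R₁, R₂, hN, hC, hR₁, hR₂, hδ⟩ := V.exists_flat_const c hr h1 h2 g hg
  obtain ⟨a, X, ha1, ha2, ha3, ha4, ha5, ha6⟩ :=
    V.local_period c hr h1 h2 g hg hC hR₁ hR₂ hδ V.hs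
  obtain ⟨b, Y, hb1, hb2, hb3, hb4, hb5, hb6⟩ :=
    V.local_period c hr h1 h2 g hg hC hR₁ hR₂ hδ V.ht
  refine ⟨a, b, X, Y, ⟨ha1, ha2, fun i => (V.dR_s _).2 (ha3 i), ha4⟩,
    ⟨hb1, hb2, fun i => (V.dR_t _).2 (hb3 i), hb4⟩, ha5, hb5, ?_⟩
  refine IsAlgebraic.of_pow hN ?_
  have h3 : (X.det / Y.det) ^ N = X.det ^ N / C * (Y.det ^ N / C)⁻¹ := by
    have h4 : Y.det ^ N ≠ 0 := pow_ne_zero _ hb5
    rw [div_pow]
    field_simp
  rw [h3]
  exact ha6.mul hb6.inv

end GD
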